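import Mathlib.CategoryTheory.Category.Init
import Mathlib.Analysis.SpecialFunctions.Complex.Arg
import Mathlib.Algebra.Order.Star.Real
import Mathlib.Analysis.Calculus.Deriv.Inv
import Mathlib.Analysis.CStarAlgebra.Classes

/-! Splitting of the root extension over a cocompact Fuchsian group, part 1:
groups acting on the unit disc through `U(1,1)`, Moebius factors, arguments. -/

namespace Pool.Agent.MP_54e5d7_al.ATC.Split

open Complex Metric Filter Topology ComplexConjugate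

/-- A homomorphism from a group to `U(1,1)`, given by its matrix entries. -/
structure DiscAct (H : Type*) [Group H] where
  a : H → ℂ
  b : H → ℂ
  c : H → ℂ
  d : H → ℂ
  a_mul : ∀ g h, a (g * h) = a g * a h + b g * c h
  b_mul : ∀ g h, b (g * h) = a g * b h + b g * d h
  c_mul : ∀ g h, c (g * h) = c g * a h + d g * c h
  d_mul : ∀ g h, d (g * h) = c g * b h + d g * d h
  a_one : a 1 = 1
  b_one : b 1 = 0
  c_one : c 1 = 0
  d_one : d 1 = 1
  u1 : ∀ g, a g * conj (a g) - c g * conj (c g) = 1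
  u2 : ∀ g, b g * conj (b g) - d g * conj (d g) = -1
  u3 : ∀ g, a g * conj (b g) - c g * conj (d g) = 0

/-- The Moebius factor with zero `p`. -/
noncomputable def phi (p z : ℂ) : ℂ := (z - p) / (1 - conj p * z)

/-- The angle under which the pair `x, y` is seen from `p`. -/
noncomputable def ang (p x y : ℂ) : ℝ := arg (phi p y / phi p x)

/-- Sum of the three angles of a triangle seen from `p`. -/
noncomputable def tri (p x y z : ℂ) : ℝ := ang p x y + ang p y z - ang p x z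

lemma mul_conj_eq (z : ℂ) : z * conj z = ((‖z‖ ^ 2 : ℝ) : ℂ) := by
  rw [Complex.mul_conj, Complex.normSq_eq_norm_sq]

lemma one_sub_ne {p z : ℂ} (hp : ‖p‖ < 1) (hz : ‖z‖ < 1) : 1 - conj p * z ≠ 0 := by
  intro h
  have h1 : conj p * z = 1 := by linear_combination -h
  have h2 := congrArg norm h1
  rw [norm_mul, Complex.norm_conj, norm_one] at h2
  nlinarith [norm_nonneg p, norm_nonneg z]

lemma norm_one_sub_ge (p z : ℂ) : 1 - ‖p‖ * ‖z‖ ≤ ‖1 - conj p * z‖ := by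
  have := norm_sub_norm_le (1 : ℂ) (conj p * z)
  rwa [norm_one, norm_mul, Complex.norm_conj] at this

lemma phi_ne {p z : ℂ} (hp : ‖p‖ < 1) (hz : ‖z‖ < 1) (h : z ≠ p) : phi p z ≠ 0 :=
  div_ne_zero (sub_ne_zero.2 h) (one_sub_ne hp hz)

@[simp] lemma phi_zero (z : ℂ) : phi 0 z = z := by simp [phi]

/-- Multiples of `2 π`. -/
def Z2 (x : ℝ) : Prop := ∃ m : ℤ, x = 2 * Real.pi * m

lemma z2_iff (x : ℝ) : Z2 x ↔ (x : Real.Angle) = 0 := by
  rw [← Real.Angle.coe_zero, Real.Angle.angle_eq_iff_two_pi_dvd_sub, sub_zero]; rfl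

lemma Z2.zero : Z2 0 := ⟨0, by simp⟩

lemma Z2.add {x y : ℝ} (hx : Z2 x) (hy : Z2 y) : Z2 (x + y) := by
  obtain ⟨m, rfl⟩ := hx; obtain ⟨n, rfl⟩ := hy
  exact ⟨m + n, by push_cast; ring⟩

lemma Z2.neg {x : ℝ} (hx : Z2 x) : Z2 (-x) := by
  obtain ⟨m, rfl⟩ := hx
  exact ⟨-m, by push_cast; ring⟩

lemma Z2.sub {x y : ℝ} (hx : Z2 x) (hy : Z2 y) : Z2 (x - y) := by
  rw [sub_eq_add_neg]; exact hx.add hy.neg

lemma Z2.natMul {x : ℝ} (hx : Z2 x) (n : ℕ) : Z2 (n * x) := by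
  obtain ⟨m, rfl⟩ := hx
  exact ⟨n * m, by push_cast; ring⟩

lemma Z2.sum {ι : Type*} (s : Finset ι) {f : ι → ℝ} (h : ∀ i ∈ s, Z2 (f i)) :
    Z2 (∑ i ∈ s, f i) :=
  Finset.sum_induction f Z2 (fun _ _ => Z2.add) Z2.zero h

lemma Z2.tsum {ι : Type*} {f : ι → ℝ} (hf : (Function.support f).Finite) (h : ∀ i, Z2 (f i)) :
    Z2 (∑' i, f i) := by
  rw [tsum_eq_sum (s := hf.toFinset)]
  · exact Z2.sum _ fun i _ => h i
  · intro i hi
    simpa using hi

lemma Z2.eq_zero {x : ℝ} (hx : Z2 x) (h : |x| < 2 * Real.pi) : x = 0 := by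
  obtain ⟨m, rfl⟩ := hx
  have hp : 0 < 2 * Real.pi := Real.two_pi_pos
  rw [abs_mul, abs_of_pos hp] at h
  have h1 : |(m : ℝ)| < 1 := by
    by_contra hc
    push Not at hc
    nlinarith
  have h2 : |m| < 1 := by exact_mod_cast h1
  have : m = 0 := by
    rw [abs_lt] at h2; omega
  simp [this]

/-- A `2 π ℤ`-valued family tending to zero has finite support. -/
lemma finite_support_of_tendsto {ι : Type*} {f : ι → ℝ} (h : ∀ i, Z2 (f i))
    (ht : Tendsto f cofinite (𝓝 0)) : (Function.support f).Finite := by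
  have h1 : ∀ᶠ i in cofinite, |f i| < 2 * Real.pi := by
    have := (continuous_abs.tendsto 0).comp ht
    rw [abs_zero] at this
    exact this.eventually (gt_mem_nhds Real.two_pi_pos)
  refine (Filter.eventually_cofinite.1 h1).subset fun i hi => ?_
  intro hlt
  exact hi ((h i).eq_zero hlt)

lemma arg_div_of_re_pos {s t : ℂ} (hs : 0 < s.re) (ht : 0 < t.re) :
    arg (s / t) = arg s - arg t := by
  have hs0 : s ≠ 0 := by rintro rfl; simp at hs
  have ht0 : t ≠ 0 := by rintro rfl; simp at ht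
  have h1 := Complex.abs_arg_lt_pi_div_two_iff.2 (Or.inl hs)
  have h2 := Complex.abs_arg_lt_pi_div_two_iff.2 (Or.inl ht)
  have h3 : Z2 (arg (s / t) - (arg s - arg t)) := by
    rw [z2_iff, Real.Angle.coe_sub, Real.Angle.coe_sub, arg_div_coe_angle hs0 ht0, sub_self]
  have h4 := Complex.abs_arg_le_pi (s / t)
  rw [abs_lt] at h1 h2
  rw [abs_le] at h4
  have := h3.eq_zero (by rw [abs_lt]; constructor <;> linarith [h1.1, h1.2, h2.1, h2.2, h4.1, h4.2])
  linarith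

lemma tendsto_arg_one {ι : Type*} {F : Filter ι} {u : ι → ℂ} (h : Tendsto u F (𝓝 1)) :
    Tendsto (fun i => arg (u i)) F (𝓝 0) := by
  have := (Complex.continuousAt_arg (x := 1) (by simp)).tendsto.comp h
  rwa [Complex.arg_one] at this

lemma tri_z2 {p x y z : ℂ} (hx : phi p x ≠ 0) (hy : phi p y ≠ 0) (hz : phi p z ≠ 0) :
    Z2 (tri p x y z) := by
  rw [z2_iff, tri, ang, ang, ang, Real.Angle.coe_sub, Real.Angle.coe_add,
    arg_div_coe_angle hy hx, arg_div_coe_angle hz hy, arg_div_coe_angle hz hx]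
  abel

/-- Seen from a point outside a centred disc, the disc lies in a half plane. -/
lemma re_pos_out {p z : ℂ} (hp : ‖p‖ < 1) (hz : ‖z‖ < ‖p‖) : 0 < (-(conj p) * phi p z).re := by
  have hz1 : ‖z‖ < 1 := hz.trans hp
  have hne := one_sub_ne hp hz1
  have hN : 0 < normSq (1 - conj p * z) := normSq_pos.2 hne
  have e : -(conj p) * phi p z = (-(conj p) * (z - p) * conj (1 - conj p * z)) /
      (normSq (1 - conj p * z) : ℂ) := by
    rw [phi, ← Complex.mul_conj]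
    have : conj (1 - conj p * z) ≠ 0 := (map_ne_zero _).2 hne
    field_simp
  rw [e, Complex.div_ofReal_re]
  refine div_pos ?_ hN
  have h1 : (z * conj p).re ≤ ‖z‖ * ‖p‖ := by
    have := Complex.re_le_norm (z * conj p)
    rwa [norm_mul, Complex.norm_conj] at this
  have hp2 : ‖p‖ ^ 2 = p.re ^ 2 + p.im ^ 2 := by
    rw [← Complex.normSq_eq_norm_sq, normSq_apply]; ring
  have hz2 : ‖z‖ ^ 2 = z.re ^ 2 + z.im ^ 2 := by
    rw [← Complex.normSq_eq_norm_sq, normSq_apply]; ring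
  have e2 : (-(conj p) * (z - p) * conj (1 - conj p * z)).re =
      ‖p‖ ^ 2 * (1 + ‖z‖ ^ 2) - (1 + ‖p‖ ^ 2) * (z * conj p).re := by
    rw [hp2, hz2]; simp; ring
  rw [e2]
  have h0 := norm_nonneg z
  have hp0 : 0 < ‖p‖ := lt_of_le_of_lt h0 hz
  have h3 : 0 < ‖p‖ * (‖p‖ - ‖z‖) * (1 - ‖p‖ * ‖z‖) := by
    apply mul_pos (mul_pos hp0 (by linarith)); nlinarith
  nlinarith [mul_le_mul_of_nonneg_left h1 (by positivity : (0 : ℝ) ≤ 1 + ‖p‖ ^ 2)]

lemma ang_out {p x y : ℂ} (hp : ‖p‖ < 1) (hx : ‖x‖ < ‖p‖) (hy : ‖y‖ < ‖p‖) :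
    ang p x y = arg (-(conj p) * phi p y) - arg (-(conj p) * phi p x) := by
  rw [← arg_div_of_re_pos (re_pos_out hp hy) (re_pos_out hp hx), ang, mul_div_mul_left]
  have : p ≠ 0 := by
    rintro rfl
    simp only [norm_zero] at hx
    exact absurd hx (not_lt.2 (norm_nonneg x))
  simpa using this

lemma tri_out {p x y z : ℂ} (hp : ‖p‖ < 1) (hx : ‖x‖ < ‖p‖) (hy : ‖y‖ < ‖p‖) (hz : ‖z‖ < ‖p‖) :
    tri p x y z = 0 := by
  rw [tri, ang_out hp hx hy, ang_out hp hy hz, ang_out hp hx hz]; ring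

namespace DiscAct

variable {H : Type*} [Group H] (A : DiscAct H)

/-- Automorphy factor. -/
def j (g : H) (z : ℂ) : ℂ := A.c g * z + A.d g

/-- Action on the disc. -/
noncomputable def act (g : H) (z : ℂ) : ℂ := (A.a g * z + A.b g) / A.j g z

/-- Determinant. -/
def det (g : H) : ℂ := A.a g * A.d g - A.b g * A.c g

lemma form (g : H) (z w : ℂ) :
    (A.a g * z + A.b g) * conj (A.a g * w + A.b g) - A.j g z * conj (A.j g w)
      = z * conj w - 1 := by
  have h3 := congrArg conj (A.u3 g)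
  simp only [map_sub, map_mul, Complex.conj_conj, map_zero] at h3
  simp only [j, map_add, map_mul]
  linear_combination z * conj w * A.u1 g + A.u2 g + z * A.u3 g + conj w * h3

lemma j_ne (g : H) {z : ℂ} (hz : ‖z‖ < 1) : A.j g z ≠ 0 := by
  intro h
  have h1 := A.form g z z
  rw [h, zero_mul, sub_zero, mul_conj_eq, mul_conj_eq] at h1
  have h2 : ‖A.a g * z + A.b g‖ ^ 2 = ‖z‖ ^ 2 - 1 := by exact_mod_cast h1
  nlinarith [norm_nonneg z, sq_nonneg ‖A.a g * z + A.b g‖]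

lemma one_sub_act (g : H) {z w : ℂ} (hz : ‖z‖ < 1) (hw : ‖w‖ < 1) :
    1 - conj (A.act g w) * A.act g z = (1 - conj w * z) / (A.j g z * conj (A.j g w)) := by
  have h1 := A.j_ne g hz
  have h2 : conj (A.j g w) ≠ 0 := by simpa using A.j_ne g hw
  have h3 := A.form g z w
  rw [act, act, map_div₀]
  field_simp
  linear_combination -h3

lemma one_sub_norm_act (g : H) {z : ℂ} (hz : ‖z‖ < 1) :
    1 - ‖A.act g z‖ ^ 2 = (1 - ‖z‖ ^ 2) / ‖A.j g z‖ ^ 2 := by
  have h := A.one_sub_act g hz hz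
  rw [mul_comm (conj _), mul_comm (conj z), mul_conj_eq, mul_conj_eq, mul_conj_eq] at h
  exact_mod_cast h

lemma act_lt (g : H) {z : ℂ} (hz : ‖z‖ < 1) : ‖A.act g z‖ < 1 := by
  have h := A.one_sub_norm_act g hz
  have h1 : 0 < ‖A.j g z‖ := norm_pos_iff.2 (A.j_ne g hz)
  have h2 : 0 < (1 - ‖z‖ ^ 2) / ‖A.j g z‖ ^ 2 := by
    apply div_pos _ (by positivity); nlinarith [norm_nonneg z]
  nlinarith [norm_nonneg (A.act g z)]

lemma act_sub (g : H) {z w : ℂ} (hz : ‖z‖ < 1) (hw : ‖w‖ < 1) :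
    A.act g z - A.act g w = A.det g * (z - w) / (A.j g z * A.j g w) := by
  have h1 := A.j_ne g hz
  have h2 := A.j_ne g hw
  rw [act, act]
  field_simp
  simp only [j, det]; ring

lemma norm_det (g : H) : ‖A.det g‖ = 1 := by
  have h3 := congrArg conj (A.u3 g)
  simp only [map_sub, map_mul, Complex.conj_conj, map_zero] at h3
  have h : A.det g * conj (A.det g) = 1 := by
    simp only [det, map_sub, map_mul]
    linear_combination (A.d g * conj (A.d g) - A.b g * conj (A.b g)) * A.u1 g - A.u2 g +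
      (conj (A.a g) * A.b g - conj (A.c g) * A.d g) * A.u3 g
  rw [mul_conj_eq] at h
  have h2 : ‖A.det g‖ ^ 2 = 1 := by exact_mod_cast h
  nlinarith [norm_nonneg (A.det g)]

lemma det_ne (g : H) : A.det g ≠ 0 := by
  rw [← norm_pos_iff, A.norm_det]; exact one_pos

lemma j_mul (g h : H) {z : ℂ} (hz : ‖z‖ < 1) : A.j (g * h) z = A.j g (A.act h z) * A.j h z := by
  have h1 := A.j_ne h hz
  rw [j, j, act]
  field_simp
  simp only [j, A.c_mul, A.d_mul]; ring

lemma act_mul (g h : H) {z : ℂ} (hz : ‖z‖ < 1) : A.act (g * h) z = A.act g (A.act h z) := by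
  have h1 := A.j_ne h hz
  have h2 := A.j_ne g (A.act_lt h hz)
  have : A.a (g * h) * z + A.b (g * h) = (A.a g * A.act h z + A.b g) * A.j h z := by
    rw [act]; field_simp
    simp only [j, A.a_mul, A.b_mul]; ring
  rw [act, A.j_mul g h hz, this, mul_div_mul_right _ _ h1]; rfl

@[simp] lemma j_one (z : ℂ) : A.j 1 z = 1 := by simp [j, A.c_one, A.d_one]

@[simp] lemma act_one (z : ℂ) : A.act 1 z = z := by simp [act, A.a_one, A.b_one]

lemma act_inv_act (g : H) {z : ℂ} (hz : ‖z‖ < 1) : A.act g⁻¹ (A.act g z) = z := by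
  rw [← A.act_mul _ _ hz]; simp

lemma act_act_inv (g : H) {z : ℂ} (hz : ‖z‖ < 1) : A.act g (A.act g⁻¹ z) = z := by
  rw [← A.act_mul _ _ hz]; simp

/-- The unimodular factor in the transformation rule of `phi`. -/
noncomputable def eps (g : H) (p : ℂ) : ℂ := A.det g * conj (A.j g p) / A.j g p

lemma norm_eps (g : H) {p : ℂ} (hp : ‖p‖ < 1) : ‖A.eps g p‖ = 1 := by
  have h1 : ‖A.j g p‖ ≠ 0 := norm_ne_zero_iff.2 (A.j_ne g hp)
  rw [eps, norm_div, norm_mul, A.norm_det, Complex.norm_conj, one_mul, div_self h1]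

lemma eps_ne (g : H) {p : ℂ} (hp : ‖p‖ < 1) : A.eps g p ≠ 0 := by
  rw [← norm_pos_iff, A.norm_eps g hp]; exact one_pos

lemma phi_act (g : H) {p z : ℂ} (hp : ‖p‖ < 1) (hz : ‖z‖ < 1) :
    phi (A.act g p) (A.act g z) = A.eps g p * phi p z := by
  have h1 := A.j_ne g hz
  have h2 := A.j_ne g hp
  have h3 : conj (A.j g p) ≠ 0 := by simpa using h2
  have h4 := one_sub_ne hp hz
  rw [phi, phi, A.one_sub_act g hz hp, A.act_sub g hz hp, eps]
  field_simp

lemma ang_act (g : H) {p x y : ℂ} (hp : ‖p‖ < 1) (hx : ‖x‖ < 1) (hy : ‖y‖ < 1) :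
    ang (A.act g p) (A.act g x) (A.act g y) = ang p x y := by
  rw [ang, ang, A.phi_act g hp hx, A.phi_act g hp hy, mul_div_mul_left _ _ (A.eps_ne g hp)]

lemma tri_act (g : H) {p x y z : ℂ} (hp : ‖p‖ < 1) (hx : ‖x‖ < 1) (hy : ‖y‖ < 1)
    (hz : ‖z‖ < 1) : tri (A.act g p) (A.act g x) (A.act g y) (A.act g z) = tri p x y z := by
  rw [tri, tri, A.ang_act g hp hx hy, A.ang_act g hp hy hz, A.ang_act g hp hx hz]

lemma norm_c_le (g : H) : ‖A.c g‖ ≤ ‖A.d g‖ := by
  have h1 := A.u1 g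
  have h2 := A.u2 g
  have h3 : A.a g * conj (A.b g) = A.c g * conj (A.d g) := by linear_combination A.u3 g
  have h4 := congrArg norm h3
  rw [norm_mul, norm_mul, Complex.norm_conj, Complex.norm_conj] at h4
  rw [mul_conj_eq, mul_conj_eq] at h1 h2
  have e1 : ‖A.a g‖ ^ 2 - ‖A.c g‖ ^ 2 = 1 := by exact_mod_cast h1
  have e2 : ‖A.b g‖ ^ 2 - ‖A.d g‖ ^ 2 = -1 := by exact_mod_cast h2
  have e3 : ‖A.a g‖ ^ 2 * ‖A.b g‖ ^ 2 = ‖A.c g‖ ^ 2 * ‖A.d g‖ ^ 2 := by
    rw [← mul_pow, h4, mul_pow]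
  have e4 : ‖A.c g‖ ^ 2 ≤ ‖A.d g‖ ^ 2 := by nlinarith
  exact (sq_le_sq₀ (norm_nonneg _) (norm_nonneg _)).1 e4

lemma norm_j_ge (g : H) (z : ℂ) : ‖A.d g‖ * (1 - ‖z‖) ≤ ‖A.j g z‖ := by
  have h1 := A.norm_c_le g
  have h2 : ‖A.d g‖ ≤ ‖A.j g z‖ + ‖A.c g‖ * ‖z‖ := by
    have : A.d g = A.j g z - A.c g * z := by rw [j]; ring
    calc ‖A.d g‖ = ‖A.j g z - A.c g * z‖ := by rw [← this]
      _ ≤ _ := by rw [← norm_mul]; exact norm_sub_le _ _
  nlinarith [norm_nonneg z]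

lemma j_zero (g : H) : A.j g 0 = A.d g := by simp [j]

lemma d_pos (g : H) : 0 < ‖A.d g‖ := by
  rw [← A.j_zero]; exact norm_pos_iff.2 (A.j_ne g (by simp))

lemma differentiableOn_act (g : H) : DifferentiableOn ℂ (A.act g) (ball 0 1) := by
  unfold act j
  refine DifferentiableOn.div (by fun_prop) (by fun_prop) fun z hz => ?_
  exact A.j_ne g (by simpa using hz)

end DiscAct

end Pool.Agent.MP_54e5d7_al.ATC.Split
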